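import Pool.Agent.Helper14D.Stm3

set_option autoImplicit false

/-!
# Degrees with a large prime power divisor have density zero (helper50)
-/

namespace Pool.Agent.Helper50.VD

open Filter Topology
open scoped Nat.Prime

open Classical in
/-- the prime powers (and `1`) up to `X` -/
noncomputable def PPs (X : ℕ) : Finset ℕ :=
  (Finset.range (X + 1)).filter fun m => ∃ p k : ℕ, p.Prime ∧ m = p ^ k

theorem card_PPs (X : ℕ) :
    (PPs X).card ≤ 1 + π X + (X.sqrt + 1) * (Nat.log 2 X + 1) := by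
  classical
  have hsub : PPs X ⊆ ({1} ∪ (Finset.range (X + 1)).filter Nat.Prime) ∪
      (Finset.range (X.sqrt + 1) ×ˢ Finset.range (Nat.log 2 X + 1)).image fun z => z.1 ^ z.2 := by
    intro m hm
    simp only [PPs, Finset.mem_filter, Finset.mem_range] at hm
    obtain ⟨hmX, p, k, hp, rfl⟩ := hm
    have hX : p ^ k ≤ X := by omega
    simp only [Finset.mem_union, Finset.mem_singleton, Finset.mem_filter, Finset.mem_range,
      Finset.mem_image, Finset.mem_product, Prod.exists]
    rcases k with _ | _ | k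
    · left; left; simp
    · left; right; rw [zero_add, pow_one] at *; exact ⟨hmX, hp⟩
    · right
      refine ⟨p, k + 2, ⟨?_, ?_⟩, rfl⟩
      · have h1 : p * p ≤ X := by
          refine le_trans ?_ hX
          rw [← pow_two]
          exact Nat.pow_le_pow_right hp.pos (by omega)
        have := Nat.le_sqrt.mpr h1
        omega
      · have h1 : 2 ^ (k + 2) ≤ X := (Nat.pow_le_pow_left hp.two_le _).trans hX
        have := Nat.le_log_of_pow_le (by norm_num) h1
        omega
  refine (Finset.card_le_card hsub).trans ?_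
  refine (Finset.card_union_le _ _).trans ?_
  refine add_le_add ?_ ?_
  · refine (Finset.card_union_le _ _).trans ?_
    rw [Finset.card_singleton]
    refine add_le_add le_rfl ?_
    rw [Nat.primeCounting, Nat.primeCounting', Nat.count_eq_card_filter_range]
  · refine Finset.card_image_le.trans ?_
    rw [Finset.card_product, Finset.card_range, Finset.card_range]

theorem card_bad (a0 X : ℕ) : Set.ncard {d : ℕ | d ≤ X ∧
    ∃ p k : ℕ, p.Prime ∧ p ^ k ∣ d ∧ d < a0 * p ^ k} ≤
    1 + a0 * (1 + π X + (X.sqrt + 1) * (Nat.log 2 X + 1)) := by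
  classical
  have hsub : {d : ℕ | d ≤ X ∧ ∃ p k : ℕ, p.Prime ∧ p ^ k ∣ d ∧ d < a0 * p ^ k} ⊆
      ↑({0} ∪ (Finset.range a0 ×ˢ PPs X).image fun z => z.2 * z.1) := by
    rintro d ⟨hd, p, k, hp, ⟨c, rfl⟩, hlt⟩
    have hpk : 0 < p ^ k := Nat.pow_pos hp.pos
    simp only [Finset.coe_union, Finset.coe_singleton, Finset.coe_image, Set.mem_union,
      Set.mem_singleton_iff, Set.mem_image, Finset.mem_coe, Finset.mem_product, Finset.mem_range,
      Prod.exists]
    rcases Nat.eq_zero_or_pos c with rfl | hc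
    · left; simp
    · right
      refine ⟨c, p ^ k, ⟨?_, ?_⟩, rfl⟩
      · rw [mul_comm] at hlt
        exact lt_of_mul_lt_mul_right hlt (Nat.zero_le _)
      · simp only [PPs, Finset.mem_filter, Finset.mem_range]
        refine ⟨?_, p, k, hp, rfl⟩
        have : p ^ k ≤ p ^ k * c := Nat.le_mul_of_pos_right _ hc
        omega
  refine (Set.ncard_le_ncard hsub (Finset.finite_toSet _)).trans ?_
  rw [Set.ncard_coe_finset]
  refine (Finset.card_union_le _ _).trans ?_
  rw [Finset.card_singleton]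
  refine add_le_add le_rfl (Finset.card_image_le.trans ?_)
  rw [Finset.card_product, Finset.card_range]
  exact Nat.mul_le_mul_left _ (card_PPs X)

theorem tendsto_pi : Tendsto (fun X : ℕ => (π X : ℝ) / X) atTop (𝓝 0) := by
  have h1 : Tendsto (fun X : ℕ => (Real.log 4 + 1) / Real.log X) atTop (𝓝 0) :=
    tendsto_const_nhds.div_atTop (Real.tendsto_log_atTop.comp tendsto_natCast_atTop_atTop)
  refine squeeze_zero' (Eventually.of_forall fun X => by positivity) ?_ h1
  have h2 := (tendsto_natCast_atTop_atTop (R := ℝ)).eventually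
    (Chebyshev.eventually_primeCounting_le (ε := 1) one_pos)
  filter_upwards [h2, eventually_ge_atTop 2] with X hX hX2
  rw [Nat.floor_natCast] at hX
  have hX0 : (0 : ℝ) < X := by positivity
  rw [div_le_iff₀ hX0]
  calc (π X : ℝ) ≤ _ := hX
    _ = _ := by ring

theorem tendsto_rest : Tendsto (fun X : ℕ => (((X.sqrt + 1) * (Nat.log 2 X + 1) : ℕ) : ℝ) / X)
    atTop (𝓝 0) := by
  have h1 : Tendsto (fun X : ℕ => 8 * (Real.log X / (X : ℝ) ^ (1 / 2 : ℝ))) atTop (𝓝 0) := by
    have h2 := (isLittleO_log_rpow_atTop (by norm_num : (0 : ℝ) < 1 / 2)).tendsto_div_nhds_zero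
    have h3 := (h2.comp (tendsto_natCast_atTop_atTop (R := ℝ))).const_mul 8
    simpa using h3
  refine squeeze_zero' (Eventually.of_forall fun X => by positivity) ?_ h1
  filter_upwards [eventually_ge_atTop 3] with X hX
  have hX1 : (1 : ℝ) ≤ X := by exact_mod_cast (by omega : 1 ≤ X)
  have hX0 : (0 : ℝ) < X := by linarith
  have e1 : (X.sqrt : ℝ) ≤ √X := Real.nat_sqrt_le_real_sqrt
  have e2 : (1 : ℝ) ≤ √X := Real.one_le_sqrt.mpr hX1
  have e3 : (1 : ℝ) ≤ Real.log X := by
    rw [Real.le_log_iff_exp_le hX0]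
    have : (3 : ℝ) ≤ X := by exact_mod_cast hX
    exact (Real.exp_one_lt_d9.le.trans (by norm_num)).trans this
  have e4 : (Nat.log 2 X : ℝ) ≤ 2 * Real.log X := by
    have h2 : (2 : ℝ) ^ Nat.log 2 X ≤ X := by
      exact_mod_cast Nat.pow_log_le_self 2 (by omega)
    have h3 := Real.log_le_log (by positivity) h2
    rw [Real.log_pow] at h3
    have h4 : (0.6931471803 : ℝ) < Real.log 2 := Real.log_two_gt_d9
    nlinarith [(Nat.cast_nonneg (Nat.log 2 X) : (0 : ℝ) ≤ _)]
  rw [div_le_iff₀ hX0]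
  have e5 : (X : ℝ) = √X * √X := (Real.mul_self_sqrt hX0.le).symm
  have e6 : (X : ℝ) ^ (1 / 2 : ℝ) = √X := (Real.sqrt_eq_rpow _).symm
  push_cast
  calc ((X.sqrt : ℝ) + 1) * ((Nat.log 2 X : ℝ) + 1) ≤ (2 * √X) * (4 * Real.log X) :=
        mul_le_mul (by linarith) (by linarith) (by positivity) (by positivity)
    _ = 8 * (Real.log X / √X) * (√X * √X) := by
        have : √(X : ℝ) ≠ 0 := by linarith
        field_simp
        ring
    _ = 8 * (Real.log X / (X : ℝ) ^ (1 / 2 : ℝ)) * X := by rw [e6, ← e5]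

theorem t_dens : Pool.Agent.Helper14D.S_dens := by
  intro a0
  have h1 : Tendsto (fun X : ℕ => 1 / (X : ℝ) + a0 * (1 / (X : ℝ) + (π X : ℝ) / X +
      (((X.sqrt + 1) * (Nat.log 2 X + 1) : ℕ) : ℝ) / X)) atTop (𝓝 0) := by
    have h2 : Tendsto (fun X : ℕ => 1 / (X : ℝ)) atTop (𝓝 0) := tendsto_one_div_atTop_nhds_zero_nat
    have h3 := h2.add (((h2.add tendsto_pi).add tendsto_rest).const_mul (a0 : ℝ))
    simpa using h3
  refine squeeze_zero (fun X => by positivity) (fun X => ?_) h1
  have h2 : ((Set.ncard {d : ℕ | d ≤ X ∧ ∃ p k : ℕ, p.Prime ∧ p ^ k ∣ d ∧ d < a0 * p ^ k} : ℕ) : ℝ) ≤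
      ((1 + a0 * (1 + π X + (X.sqrt + 1) * (Nat.log 2 X + 1)) : ℕ) : ℝ) :=
    Nat.cast_le.mpr (card_bad a0 X)
  refine (div_le_div_of_nonneg_right h2 (Nat.cast_nonneg X)).trans (le_of_eq ?_)
  push_cast
  ring

end Pool.Agent.Helper50.VD
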